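import Pool.Agent.Helper18.LD8.PC
import Pool.Agent.Helper80.LD8.NUM8
import Pool.Agent.Helper44.LD8.TT8b
import Pool.Agent.Helper83.LD8.GM
import Pool.Agent.Helper8.LD8.WinF
import Pool.Agent.Helper4.LD8.NBB
import Pool.Agent.Helper4.LD6.H5
import Pool.Agent.Helper9.LD6.E6
import Pool.Agent.Helper52.LD6.STP

/-!
# Project LD8, block STP8: one block of a stage
-/

set_option autoImplicit false

namespace Pool.Agent.Helper52.LD8

open Set MeasureTheory Filter Topology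
open Pool.Agent.Helper41.LD (av)
open Pool.Agent.Helper41.LD4 (A M W Pot NB NBg)
open Pool.Agent.Helper41.LD6 (hr vr lv Qs vq lev dm Lv om GQ Gr Wq)
open Pool.Agent.Helper78.LD8
open Pool.Agent.Helper18.LD8 (stage_PC8)
open Pool.Agent.Helper80.LD8 (num_K num_Z num_ZK num_e num_E num_r)
open Pool.Agent.Helper44.LD8 (T_blk)
open Pool.Agent.Helper83.LD8 (G_meas G_bdd G_NB)
open Pool.Agent.Helper8.LD8 (win)
open Pool.Agent.Helper4.LD8 (stage_nb8)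
open Pool.Agent.Helper4.LD6 (lev_mem om_sum om_pos om_lo lev_sum6 mu_sum Qs_card vq_lo Qs_ne)
open Pool.Agent.Helper9.LD6 (step6)
open Pool.Agent.Helper52.LD6 (gain6 level_sum weight_le)

variable {F : Pm} {K : ℕ} {ℓst a ℓ : ℝ}

open Classical in
/-- STP8: one block of a stage -/
theorem stage_step8 (hF : F.Ok) (hK : F.Big K) (hK2 : F.Z * F.b K * K ≤ 2 ^ K) (hN : F.NR K) (hℓ : 0 < ℓ) (hst : ℓ ≤ ℓst) (hst1 : ℓst ≤ 1)
    (hcount : F.T K ℓst (ℓ / 2 ^ F.b K) + F.r K ≤ 2 ^ (2 * K)) (hgood : F.Good K ℓst a ℓ) :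
    (1 / 2 : ℝ) ^ (3 * F.e K) * ((2 ^ F.b K : ℕ) : ℝ) ≤ (((Finset.range (2 ^ F.b K)).filter fun b : ℕ =>
      F.Good K ℓst (a + b * (ℓ / (2 ^ F.b K : ℕ))) (ℓ / (2 ^ F.b K : ℕ))).card : ℝ) := by
  classical
  have hKbig := num_K hK
  obtain ⟨hZ1, nX, nd, -, -⟩ := num_Z F
  obtain ⟨hZK, hZ4⟩ := num_ZK hK
  obtain ⟨hE4, hEd, -⟩ := num_e F K
  obtain ⟨hR2, -, -, -⟩ := num_r hF hK
  obtain ⟨-, hEE, -⟩ := num_E hF hK
  obtain ⟨hb1, hb2⟩ := T_blk hF hK hℓ hst hst1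
  have hX1 := hF.hX
  have hr1 : 1 ≤ F.r K := by
    unfold Pm.r
    exact Nat.mul_pos (by omega) hEE
  have hEdef : F.e K = 3 * K + K * (F.d + 1) := by unfold Pm.e; ring
  set E := F.e K with hE
  set Λ : ℕ := F.b K with hΛ
  have hE2 : 2 ≤ E := by omega
  have hE1 : 1 ≤ E := by omega
  have hBr : (((2 ^ Λ : ℕ)) : ℝ) = 2 ^ Λ := by push_cast; rfl
  have hℓ2 : 0 < ℓ / 2 ^ Λ := by positivity
  have hℓeq : ℓ / ((2 ^ Λ : ℕ) : ℝ) = ℓ / 2 ^ Λ := by rw [hBr]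
  set n : ℕ := F.T K ℓst ℓ with hn
  set L' : ℕ := F.T K ℓst (ℓ / 2 ^ Λ) - n with hL'
  have hnL : n + L' = F.T K ℓst (ℓ / 2 ^ Λ) := by omega
  obtain ⟨t, hPC⟩ := stage_PC8 hF hK hN hℓ hst hst1 hcount a
  have hnb := stage_nb8 hF hK hℓ hst hst1 hcount a
  -- the weights
  have hμ0 : ∀ q ∈ Qs F.d K, (1 / 2 : ℝ) ^ E ≤ om K (lev q) ^ 2 * vq q := by
    intro q hq
    have e1 := om_lo (d := F.d) K (lev q)
    have e2 := (vq_lo hq).1
    have e3 : ((2 * (K + 1)) ^ (2 * (F.d + 1)) : ℕ) ≤ 2 ^ (3 * K) := by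
      refine weight_le (by omega) (by omega) ?_
      calc (F.d + 1) ^ 4 ≤ F.Z ^ 4 := Nat.pow_le_pow_left (by omega) 4
        _ ≤ K := hZ4
    have e3r : (2 * ((K : ℝ) + 1)) ^ (2 * (F.d + 1)) ≤ 2 ^ (3 * K) := by exact_mod_cast e3
    have e4 : ((1 / (2 * ((K : ℝ) + 1))) ^ (F.d + 1)) ^ 2 ≤ om K (lev q) ^ 2 := pow_le_pow_left₀ (by positivity) e1 2
    refine le_trans ?_ (mul_le_mul e4 e2 (by positivity) (by positivity))
    rw [hEdef, pow_add, ← pow_mul, Nat.mul_comm (F.d + 1) 2]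
    refine mul_le_mul_of_nonneg_right ?_ (by positivity)
    rw [one_div_pow, one_div_pow]
    exact one_div_le_one_div_of_le (by positivity) e3r
  have hv0 : ∀ q ∈ Qs F.d K, 0 < vq q := fun q hq => lt_of_lt_of_le (by positivity) (vq_lo hq).1
  have hv1 : ∀ q ∈ Qs F.d K, vq q ≤ 1 := fun q hq => (vq_lo hq).2
  -- the gain
  have hgain : ∀ g : (Fin (F.d + 1) → ℕ) → ℝ, 1 / 2 * (∑ q ∈ Qs F.d K, |g q| * (om K (lev q) * vq q)) * ((2 ^ Λ : ℕ) : ℝ) ≤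
      ∑ b ∈ Finset.range (2 ^ Λ), |∑ q ∈ Qs F.d K, g q * (M (F.G K ℓst q) (a + b * (ℓ / (2 ^ Λ : ℕ))) (ℓ / (2 ^ Λ : ℕ)) -
        M (F.G K ℓst q) a ℓ)| := by
    intro g
    refine gain6 (Qs F.d K) (Lv F.d K) lev (om K) (fun q hq => lev_mem hq) (fun l _ => (om_pos K l).1.le) (om_sum F.d K)
      Nat.one_le_two_pow (fun q b => M (F.G K ℓst q) (a + b * (ℓ / (2 ^ Λ : ℕ))) (ℓ / (2 ^ Λ : ℕ)) - M (F.G K ℓst q) a ℓ)
      (fun q b => A (F.G K ℓst q) t (a + b * (ℓ / (2 ^ Λ : ℕ))) (ℓ / (2 ^ Λ : ℕ))) vq (η := (1 / 2) ^ (4 * E)) ?_ ?_ ?_ g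
    · intro l _ b _
      refine level_sum _ (fun q => F.G K ℓst q t) (fun q hq => ?_) (fun q hq => ?_) (fun x => ?_) _ (by rw [hℓeq]; exact hℓ2)
      · exact G_meas K ℓst (Finset.mem_filter.1 hq).1 t
      · exact G_bdd K ℓst (Finset.mem_filter.1 hq).1 t
      · by_cases ht : t < 2 ^ (2 * K)
        · have e1 : ∀ q, F.G K ℓst q t x = ∏ i : Fin (F.d + 1), hr (q i) (F.U K ℓst (t + i) x) := by
            intro q
            unfold Pm.G GQ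
            rw [if_pos ht]
          rw [Finset.sum_congr rfl fun q _ => by rw [e1 q]]
          exact lev_sum6 l fun i => F.U K ℓst (t + i) x
        · have e1 : ∀ q, F.G K ℓst q t x = 0 := by
            intro q
            unfold Pm.G GQ
            rw [if_neg ht]
          rw [Finset.sum_congr rfl fun q _ => by rw [e1 q, abs_zero], Finset.sum_const_zero]
          exact zero_le_one
    · intro q hq q' hq'
      exact hPC q hq q' hq'
    · intro q hq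
      have e1 := hμ0 q hq
      have e2 : om K (lev q) ^ 2 * vq q ≤ om K (lev q) * vq q := by
        refine mul_le_mul_of_nonneg_right ?_ (hv0 q hq).le
        exact pow_le_of_le_one (om_pos K (lev q)).1.le (om_pos K (lev q)).2 two_ne_zero
      have e4 : (((Qs F.d K).card : ℕ) : ℝ) ≤ 2 ^ E := by
        have e5 := (Qs_card F.d K).trans (Nat.pow_le_pow_right (by norm_num : 0 < 2) hEd)
        exact_mod_cast e5
      have e6 : (1 / 2 : ℝ) ^ (4 * E) * (((Qs F.d K).card : ℕ) : ℝ) ≤ (1 / 2) ^ (4 * E) * 2 ^ E :=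
        mul_le_mul_of_nonneg_left e4 (by positivity)
      have e7 : (1 / 2 : ℝ) ^ (4 * E) * 2 ^ E ≤ (1 / 2) ^ E / 2 := by
        have e8 : (1 / 2 : ℝ) ^ E / 2 = (1 / 2) ^ (E + 1) := by rw [pow_succ]; ring
        have e9 : (1 / 2 : ℝ) ^ (4 * E) * 2 ^ E = (1 / 2) ^ (3 * E) := by
          rw [show 4 * E = 3 * E + E by ring, pow_add, mul_assoc, ← mul_pow]
          norm_num
        rw [e8, e9]
        exact pow_le_pow_of_le_one (by norm_num) (by norm_num) (by omega)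
      linarith
  -- the abstract step
  have hlamc : ((F.X * Λ : ℕ) : ℝ) = F.X * (Λ : ℕ) := by push_cast; ring
  have hΛ1 : 1 ≤ Λ := by
    have h3 : 1 ≤ F.r K ^ 2 := Nat.pow_pos hr1
    omega
  have hKr : (1 : ℝ) ≤ K := by exact_mod_cast (by omega : 1 ≤ K)
  have hXr : (1 : ℝ) ≤ F.X := by exact_mod_cast hX1
  have hS := step6 (Qs F.d K) (Qs_ne (by omega)) (G := F.G K ℓst) (w := fun q => 2 * vq q) (v := vq) (ω := fun q => om K (lev q))
    (η := (1 / 2) ^ (2 * E)) (H := 2 ^ (2 * K)) (n := n) (L' := L') (r := F.r K) (L := F.X * Λ) (B := 2 ^ Λ) (E := E) (a := a) (ℓ := ℓ)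
    (lam := 1 / (16384 * ((F.X : ℝ) * (Λ : ℕ))))
    hE2 hr1 Nat.one_le_two_pow (fun _ _ => rfl) hv0 hv1 (fun q _ => (om_pos K (lev q)).1) (fun q _ => (om_pos K (lev q)).2) hμ0 (mu_sum F.d K)
    ⟨by omega, by omega⟩
    (by
      have : (F.r K) ^ 2 ≤ F.X * Λ := hR2.trans (Nat.le_mul_of_pos_left _ hX1)
      exact_mod_cast this)
    (by
      rw [hlamc, one_div_mul_eq_div, div_self (by positivity)])
    (by
      rw [one_div_pow]
      refine one_div_le_one_div_of_le (by positivity) ?_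
      have e1 : 16384 * (F.X * Λ) ≤ 2 ^ E := by
        calc 16384 * (F.X * Λ) ≤ K * (F.Z * Λ) :=
              Nat.mul_le_mul (by omega) (Nat.mul_le_mul_right _ (by omega))
          _ = F.Z * Λ * K := by ring
          _ ≤ 2 ^ K := hK2
          _ ≤ 2 ^ E := Nat.pow_le_pow_right (by norm_num) (by omega)
      exact_mod_cast e1)
    (fun q hq => win hF hK hN hℓ hq a)
    (fun q hq b hb => by
      have h4 := win hF hK hN (ℓst := ℓst) (ℓ := ℓ / (2 ^ Λ : ℕ)) (by rw [hℓeq]; exact hℓ2) hq (a + b * (ℓ / (2 ^ Λ : ℕ)))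
      rw [hnL]
      rw [hℓeq] at h4 ⊢
      exact h4)
    hgain (fun q hq => G_NB hq hgood.1) hgood.2
  -- good children
  have hsub : ((Finset.range (2 ^ Λ)).filter fun b : ℕ =>
      ∑ q ∈ Qs F.d K, Pot (F.G K ℓst q) (n + L') (F.r K) (1 / (16384 * ((F.X : ℝ) * (Λ : ℕ))) * om K (lev q)) (a + b * (ℓ / (2 ^ Λ : ℕ))) (ℓ / (2 ^ Λ : ℕ)) ≤ 16 ^ E) ⊆
      ((Finset.range (2 ^ Λ)).filter fun b : ℕ => F.Good K ℓst (a + b * (ℓ / (2 ^ Λ : ℕ))) (ℓ / (2 ^ Λ : ℕ))) ∪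
      (Finset.range (2 ^ Λ)).filter fun b : ℕ => ¬ NBg (F.U K ℓst) (F.T K ℓst (ℓ / 2 ^ Λ) + F.d) (F.r K) (2 ^ K)
        (a + b * (ℓ / (2 ^ Λ : ℕ))) (ℓ / (2 ^ Λ : ℕ)) := by
    intro b hb
    rw [Finset.mem_filter] at hb
    obtain ⟨hb1, hb2⟩ := hb
    rw [Finset.mem_union, Finset.mem_filter, Finset.mem_filter]
    by_cases hnb : NBg (F.U K ℓst) (F.T K ℓst (ℓ / 2 ^ Λ) + F.d) (F.r K) (2 ^ K) (a + b * (ℓ / (2 ^ Λ : ℕ))) (ℓ / (2 ^ Λ : ℕ))
    · left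
      refine ⟨hb1, ?_⟩
      rw [hnL] at hb2
      rw [← hℓeq] at hnb hb2
      exact ⟨hnb, hb2⟩
    · exact Or.inr ⟨hb1, hnb⟩
  have hcard := (Finset.card_le_card hsub).trans (Finset.card_union_le _ _)
  have hcard' := (Nat.cast_le (α := ℝ)).2 hcard
  rw [Nat.cast_add] at hcard'
  have hS2 := hS.trans hcard'
  have h3 : (1 / 2 : ℝ) ^ (3 * E) * ((2 ^ Λ : ℕ) : ℝ) + (1 / 2 : ℝ) ^ (3 * E) * ((2 ^ Λ : ℕ) : ℝ) =
      2 * (1 / 2 : ℝ) ^ (3 * E) * ((2 ^ Λ : ℕ) : ℝ) := by ring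
  linarith

end Pool.Agent.Helper52.LD8
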